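import Mathlib

open MeasureTheory Filter Topology
open scoped ENNReal

namespace Pool.Agent.Results.MP_acc68d_an.TwoSidedCones

/-- `H(x, θ, β) = {y : (y - x) · θ > β |y - x|}` -/
def H {n : ℕ} (x θ : EuclideanSpace ℝ (Fin n)) (β : ℝ) : Set (EuclideanSpace ℝ (Fin n)) :=
  {y | inner ℝ (y - x) θ > β * ‖y - x‖}

/-- The truncated one-sided cone
`X⁺(x, r, θ, α) = B(x, r) ∩ H(x, θ, (1 - α²)^{1/2})`, with `B(x, r)` the closed ball. -/
def cone {n : ℕ} (x : EuclideanSpace ℝ (Fin n)) (r : ℝ) (θ : EuclideanSpace ℝ (Fin n)) (α : ℝ) :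
    Set (EuclideanSpace ℝ (Fin n)) :=
  Metric.closedBall x r ∩ H x θ (Real.sqrt (1 - α ^ 2))

end Pool.Agent.Results.MP_acc68d_an.TwoSidedCones
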