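import Pool.Agent.Work.MP_acc68d_an.Defs

open MeasureTheory Filter Topology
open scoped ENNReal

namespace Pool.Agent.Results.MP_acc68d_an.TwoSidedCones

variable {n : ℕ}

/-! ### A finite set of directions -/

lemma exists_cover {β : ℝ} (hβ : β < 1) :
    ∃ Θ : Finset (EuclideanSpace ℝ (Fin n)),
      (∀ θ ∈ Θ, θ ∈ Metric.sphere (0 : EuclideanSpace ℝ (Fin n)) 1) ∧
      ∀ x y : EuclideanSpace ℝ (Fin n), x ≠ y → ∃ θ ∈ Θ, y ∈ H x θ β := by
  classical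
  have hc := isCompact_sphere (0 : EuclideanSpace ℝ (Fin n)) 1
  obtain ⟨t, ht1, ht⟩ := hc.elim_nhds_subcover
    (fun θ => {u : EuclideanSpace ℝ (Fin n) | β < inner ℝ u θ})
    (by
      intro θ hθ
      refine IsOpen.mem_nhds (isOpen_lt continuous_const (by fun_prop)) ?_
      have h1 : ‖θ‖ = 1 := by simpa using hθ
      show β < inner ℝ θ θ
      rw [real_inner_self_eq_norm_sq, h1]
      linarith)
  refine ⟨t, ht1, fun x y hxy => ?_⟩
  have h0 : 0 < ‖y - x‖ := norm_pos_iff.2 (sub_ne_zero.2 hxy.symm)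
  have hu : ‖y - x‖⁻¹ • (y - x) ∈ Metric.sphere (0 : EuclideanSpace ℝ (Fin n)) 1 := by
    rw [mem_sphere_zero_iff_norm, norm_smul, norm_inv, norm_norm, inv_mul_cancel₀ h0.ne']
  obtain ⟨θ, hθ, hθ2⟩ := Set.mem_iUnion₂.1 (ht hu)
  refine ⟨θ, hθ, ?_⟩
  have h2 : β < inner ℝ (‖y - x‖⁻¹ • (y - x)) θ := hθ2
  rw [real_inner_smul_left, ← div_eq_inv_mul, lt_div_iff₀ h0] at h2
  exact h2

lemma mem_H_neg {x y θ : EuclideanSpace ℝ (Fin n)} {β : ℝ} : y ∈ H x θ β ↔ x ∈ H y (-θ) β := by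
  unfold H
  show β * ‖y - x‖ < inner ℝ (y - x) θ ↔ β * ‖x - y‖ < inner ℝ (x - y) (-θ)
  rw [norm_sub_rev, inner_neg_right, ← inner_neg_left, neg_sub]

lemma isOpen_pair (θ : EuclideanSpace ℝ (Fin n)) (β : ℝ) :
    IsOpen {p : EuclideanSpace ℝ (Fin n) × EuclideanSpace ℝ (Fin n) | p.2 ∈ H p.1 θ β} := by
  unfold H
  show IsOpen {p : EuclideanSpace ℝ (Fin n) × EuclideanSpace ℝ (Fin n) |
    β * ‖p.2 - p.1‖ < inner ℝ (p.2 - p.1) θ}
  exact isOpen_lt (by fun_prop) (by fun_prop)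

lemma measurable_H (ν : Measure (EuclideanSpace ℝ (Fin n))) [SFinite ν]
    (θ : EuclideanSpace ℝ (Fin n)) (β : ℝ) : Measurable fun x => ν (H x θ β) :=
  measurable_measure_prodMk_left (isOpen_pair θ β).measurableSet

lemma measurableSet_H (x θ : EuclideanSpace ℝ (Fin n)) (β : ℝ) : MeasurableSet (H x θ β) := by
  have : IsOpen (H x θ β) := by
    unfold H
    show IsOpen {y : EuclideanSpace ℝ (Fin n) | β * ‖y - x‖ < inner ℝ (y - x) θ}
    exact isOpen_lt (by fun_prop) (by fun_prop)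
  exact this.measurableSet

lemma lintegral_H_swap (ρ : Measure (EuclideanSpace ℝ (Fin n))) [SFinite ρ]
    (θ : EuclideanSpace ℝ (Fin n)) (β : ℝ) :
    ∫⁻ x, ρ (H x θ β) ∂ρ = ∫⁻ y, ρ (H y (-θ) β) ∂ρ := by
  have hm := (isOpen_pair θ β).measurableSet
  have h1 := Measure.prod_apply (μ := ρ) (ν := ρ) hm
  have h2 := Measure.prod_apply_symm (μ := ρ) (ν := ρ) hm
  rw [h1] at h2
  have e1 : ∀ x : EuclideanSpace ℝ (Fin n), Prod.mk x ⁻¹' {p : EuclideanSpace ℝ (Fin n) ×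
      EuclideanSpace ℝ (Fin n) | p.2 ∈ H p.1 θ β} = H x θ β := fun x => rfl
  have e2 : ∀ y : EuclideanSpace ℝ (Fin n), (fun x => (x, y)) ⁻¹' {p : EuclideanSpace ℝ (Fin n) ×
      EuclideanSpace ℝ (Fin n) | p.2 ∈ H p.1 θ β} = H y (-θ) β := by
    intro y
    ext x
    show y ∈ H x θ β ↔ x ∈ H y (-θ) β
    exact mem_H_neg
  simp only [e1, e2] at h2
  exact h2

/-! ### A pigeonhole argument -/

lemma exists_mem_gt {ν : Measure (EuclideanSpace ℝ (Fin n))}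
    {A : Set (EuclideanSpace ℝ (Fin n))} (hA : MeasurableSet A)
    {f : EuclideanSpace ℝ (Fin n) → ℝ≥0∞} {t : ℝ≥0∞}
    (h : t * ν A < ∫⁻ x, f x ∂(ν.restrict A)) : ∃ x ∈ A, t < f x := by
  by_contra hcon
  push Not at hcon
  apply absurd h
  rw [not_lt]
  calc ∫⁻ x, f x ∂(ν.restrict A) ≤ ∫⁻ _, t ∂(ν.restrict A) := by
        apply lintegral_mono_ae
        filter_upwards [ae_restrict_mem hA] with x hx
        exact hcon x hx
    _ = t * ν A := by simp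

lemma exists_two_sided (ν : Measure (EuclideanSpace ℝ (Fin n))) [IsFiniteMeasure ν]
    (hν : ∀ x, ν {x} = 0) {Θ : Finset (EuclideanSpace ℝ (Fin n))} {β : ℝ}
    (hΘ : ∀ x y : EuclideanSpace ℝ (Fin n), x ≠ y → ∃ θ ∈ Θ, y ∈ H x θ β)
    {A : Set (EuclideanSpace ℝ (Fin n))} (hA : MeasurableSet A) {t : ℝ≥0∞}
    (ht : (Θ.card : ℝ≥0∞) * t < ν A)
    (hS : ∀ x ∈ A, ∀ y ∈ A, ∀ θ ∈ Θ, t < ν (H x θ β) → t < ν (H y θ β)) :
    ∃ y ∈ A, ∃ θ ∈ Θ, t < ν (H y θ β) ∧ t < ν (H y (-θ) β) := by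
  set ρ := ν.restrict A with hρ
  have hρle : ∀ s, ρ s ≤ ν s := fun s => Measure.restrict_apply_le A s
  have hρu : ρ Set.univ = ν A := Measure.restrict_apply_univ A
  have hcov : ∀ x, ν A ≤ ∑ θ ∈ Θ, ρ (H x θ β) := by
    intro x
    have h1 : (Set.univ : Set (EuclideanSpace ℝ (Fin n))) ⊆ {x} ∪ ⋃ θ ∈ Θ, H x θ β := by
      intro y _
      rcases eq_or_ne x y with h | h
      · left
        exact h.symm
      · right
        obtain ⟨θ, hθ, hy⟩ := hΘ x y h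
        exact Set.mem_iUnion₂.2 ⟨θ, hθ, hy⟩
    calc ν A = ρ Set.univ := hρu.symm
      _ ≤ ρ ({x} ∪ ⋃ θ ∈ Θ, H x θ β) := measure_mono h1
      _ ≤ ρ {x} + ρ (⋃ θ ∈ Θ, H x θ β) := measure_union_le _ _
      _ ≤ 0 + ∑ θ ∈ Θ, ρ (H x θ β) := by
          gcongr
          · exact (hρle _).trans (hν x).le
          · exact measure_biUnion_finset_le _ _
      _ = _ := zero_add _
  have hνA : ν A ≠ ⊤ := measure_ne_top ν A
  have hνA0 : ν A ≠ 0 := (pos_of_gt ht).ne'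
  have hkey : ∃ θ ∈ Θ, t * ν A < ∫⁻ x, ρ (H x θ β) ∂ρ := by
    by_contra hcon
    push Not at hcon
    have h2 : ν A * ν A ≤ (Θ.card : ℝ≥0∞) * t * ν A := by
      calc ν A * ν A = ∫⁻ _, ν A ∂ρ := by simp [hρu]
        _ ≤ ∫⁻ x, ∑ θ ∈ Θ, ρ (H x θ β) ∂ρ := lintegral_mono fun x => hcov x
        _ = ∑ θ ∈ Θ, ∫⁻ x, ρ (H x θ β) ∂ρ :=
            lintegral_finsetSum _ fun θ _ => measurable_H ρ θ β
        _ ≤ ∑ θ ∈ Θ, t * ν A := Finset.sum_le_sum fun θ hθ => hcon θ hθ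
        _ = (Θ.card : ℝ≥0∞) * t * ν A := by
            rw [Finset.sum_const, nsmul_eq_mul, mul_assoc]
    have h3 := (ENNReal.mul_le_mul_iff_left hνA0 hνA).1 h2
    exact absurd h3 (not_le.2 ht)
  obtain ⟨θ, hθ, hint⟩ := hkey
  have hint2 : t * ν A < ∫⁻ y, ρ (H y (-θ) β) ∂ρ := by
    rwa [← lintegral_H_swap]
  obtain ⟨x, hx, hx2⟩ := exists_mem_gt hA hint
  obtain ⟨y, hy, hy2⟩ := exists_mem_gt hA hint2
  exact ⟨y, hy, θ, hθ, hS x hx y hy θ hθ (hx2.trans_le (hρle _)), hy2.trans_le (hρle _)⟩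

/-- the set of points at which `ν` is two-sided in some direction of `Θ`, at level `t` -/
def TS (ν : Measure (EuclideanSpace ℝ (Fin n))) (Θ : Finset (EuclideanSpace ℝ (Fin n)))
    (β : ℝ) (t : ℝ≥0∞) : Set (EuclideanSpace ℝ (Fin n)) :=
  {y | ∃ θ ∈ Θ, t < ν (H y θ β) ∧ t < ν (H y (-θ) β)}

lemma measurableSet_TS (ν : Measure (EuclideanSpace ℝ (Fin n))) [SFinite ν]
    (Θ : Finset (EuclideanSpace ℝ (Fin n))) (β : ℝ) (t : ℝ≥0∞) :
    MeasurableSet (TS ν Θ β t) := by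
  have : TS ν Θ β t = ⋃ θ ∈ Θ, ({y | t < ν (H y θ β)} ∩ {y | t < ν (H y (-θ) β)}) := by
    ext y
    simp only [TS, Set.mem_iUnion, Set.mem_inter_iff, exists_prop]
    rfl
  rw [this]
  refine Finset.measurableSet_biUnion _ fun θ _ => ?_
  exact (measurableSet_lt measurable_const (measurable_H ν θ β)).inter
    (measurableSet_lt measurable_const (measurable_H ν (-θ) β))

lemma measure_compl_TS_le (ν : Measure (EuclideanSpace ℝ (Fin n))) [IsFiniteMeasure ν]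
    (hν : ∀ x, ν {x} = 0) {Θ : Finset (EuclideanSpace ℝ (Fin n))} {β : ℝ}
    (hΘ : ∀ x y : EuclideanSpace ℝ (Fin n), x ≠ y → ∃ θ ∈ Θ, y ∈ H x θ β) (t : ℝ≥0∞) :
    ν (TS ν Θ β t)ᶜ ≤ 2 ^ Θ.card * ((Θ.card : ℝ≥0∞) * t) := by
  classical
  -- the classes
  set cl : Finset (EuclideanSpace ℝ (Fin n)) → Set (EuclideanSpace ℝ (Fin n)) := fun S =>
    (TS ν Θ β t)ᶜ ∩ ⋂ θ ∈ Θ, {x | θ ∈ S ↔ t < ν (H x θ β)} with hcl
  have hclm : ∀ S, MeasurableSet (cl S) := by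
    intro S
    refine (measurableSet_TS ν Θ β t).compl.inter ?_
    refine Finset.measurableSet_biInter _ fun θ _ => ?_
    by_cases h : θ ∈ S
    · simpa [h] using measurableSet_lt measurable_const (measurable_H ν θ β)
    · simpa [h] using measurableSet_le (measurable_H ν θ β) measurable_const
  have hcover : (TS ν Θ β t)ᶜ ⊆ ⋃ S ∈ Θ.powerset, cl S := by
    intro x hx
    refine Set.mem_iUnion₂.2 ⟨Θ.filter (fun θ => t < ν (H x θ β)), ?_, hx, ?_⟩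
    · exact Finset.mem_powerset.2 (Finset.filter_subset _ _)
    · refine Set.mem_iInter₂.2 fun θ hθ => ?_
      show θ ∈ Θ.filter (fun θ => t < ν (H x θ β)) ↔ t < ν (H x θ β)
      rw [Finset.mem_filter]
      exact ⟨fun h => h.2, fun h => ⟨hθ, h⟩⟩
  have hle : ∀ S, ν (cl S) ≤ (Θ.card : ℝ≥0∞) * t := by
    intro S
    by_contra hcon
    rw [not_le] at hcon
    obtain ⟨y, hy, θ, hθ, h1, h2⟩ := exists_two_sided ν hν hΘ (hclm S) hcon (by
      intro x hx y hy θ hθ hxt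
      have h3 : θ ∈ S ↔ t < ν (H x θ β) := Set.mem_iInter₂.1 hx.2 θ hθ
      have h4 : θ ∈ S ↔ t < ν (H y θ β) := Set.mem_iInter₂.1 hy.2 θ hθ
      exact h4.1 (h3.2 hxt))
    exact hy.1 ⟨θ, hθ, h1, h2⟩
  calc ν (TS ν Θ β t)ᶜ ≤ ν (⋃ S ∈ Θ.powerset, cl S) := measure_mono hcover
    _ ≤ ∑ S ∈ Θ.powerset, ν (cl S) := measure_biUnion_finset_le _ _
    _ ≤ ∑ S ∈ Θ.powerset, (Θ.card : ℝ≥0∞) * t := Finset.sum_le_sum fun S _ => hle S
    _ = 2 ^ Θ.card * ((Θ.card : ℝ≥0∞) * t) := by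
        rw [Finset.sum_const, Finset.card_powerset, nsmul_eq_mul]
        push_cast
        rfl

/-! ### Doubling at typical points -/

lemma ae_frequently_doubling (μ : Measure (EuclideanSpace ℝ (Fin n))) [IsFiniteMeasure μ] :
    ∀ᵐ x ∂μ, ∃ᶠ r in 𝓝[>] (0 : ℝ),
      μ (Metric.closedBall x (3 * r)) ≤ (2 * 3 ^ n) * μ (Metric.closedBall x r) := by
  filter_upwards [Besicovitch.ae_tendsto_rnDeriv volume μ,
    Measure.rnDeriv_lt_top (volume : Measure (EuclideanSpace ℝ (Fin n))) μ] with x hx hfin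
  by_contra hcon
  rw [not_frequently] at hcon
  obtain ⟨δ, hδ, hlt⟩ : ∃ δ : ℝ, 0 < δ ∧ ∀ r ∈ Set.Ioo 0 δ,
      (2 * 3 ^ n) * μ (Metric.closedBall x r) < μ (Metric.closedBall x (3 * r)) := by
    obtain ⟨δ, hδ, h⟩ := mem_nhdsGT_iff_exists_Ioo_subset.1 hcon
    exact ⟨δ, hδ, fun r hr => not_le.1 (h hr)⟩
  set V := (volume : Measure (EuclideanSpace ℝ (Fin n))) (Metric.ball 0 1) with hV
  have hV0 : V ≠ 0 := (Metric.measure_ball_pos volume _ one_pos).ne'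
  have hVt : V ≠ ⊤ := measure_ball_lt_top.ne
  set R : ℕ → ℝ := fun j => (δ / 2) * (1 / 3) ^ j with hR
  have hR0 : ∀ j, 0 < R j := fun j => by
    simp only [hR]
    positivity
  have hRδ : ∀ j, R j < δ := by
    intro j
    have h1 : ((1 : ℝ) / 3) ^ j ≤ 1 := pow_le_one₀ (by norm_num) (by norm_num)
    simp only [hR]
    nlinarith
  have hR3 : ∀ j, 3 * R (j + 1) = R j := by
    intro j
    simp only [hR, pow_succ]
    ring
  set M : ℝ≥0∞ := μ Set.univ + 1 with hM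
  have hM0 : M ≠ 0 := by simp [hM]
  have hMt : M ≠ ⊤ := by simp [hM]
  have hdec : ∀ j, (2 * 3 ^ n) ^ j * μ (Metric.closedBall x (R j)) ≤ M := by
    intro j
    induction j with
    | zero =>
      rw [pow_zero, one_mul]
      exact (measure_mono (Set.subset_univ _)).trans (le_self_add)
    | succ j ih =>
      have h1 := (hlt (R (j + 1)) ⟨hR0 _, hRδ _⟩).le
      rw [hR3] at h1
      calc (2 * 3 ^ n) ^ (j + 1) * μ (Metric.closedBall x (R (j + 1)))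
          = (2 * 3 ^ n) ^ j * ((2 * 3 ^ n) * μ (Metric.closedBall x (R (j + 1)))) := by
            rw [pow_succ, mul_assoc]
        _ ≤ (2 * 3 ^ n) ^ j * μ (Metric.closedBall x (R j)) := by gcongr
        _ ≤ M := ih
  have hRtend : Tendsto R atTop (𝓝[>] 0) := by
    rw [tendsto_nhdsWithin_iff]
    constructor
    · have := (tendsto_pow_atTop_nhds_zero_of_lt_one (r := (1 / 3 : ℝ)) (by norm_num)
        (by norm_num)).const_mul (δ / 2)
      simpa [hR] using this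
    · exact Eventually.of_forall fun j => hR0 j
  have hx2 := hx.comp hRtend
  set X : ℝ≥0∞ := ENNReal.ofReal ((δ / 2) ^ n) * V / M with hX
  have hX0 : X ≠ 0 := by
    rw [hX]
    refine (ENNReal.div_pos (mul_ne_zero ?_ hV0) hMt).ne'
    exact (ENNReal.ofReal_pos.2 (by positivity)).ne'
  have hratio : ∀ j, 2 ^ j * X ≤ (volume : Measure (EuclideanSpace ℝ (Fin n)))
      (Metric.closedBall x (R j)) / μ (Metric.closedBall x (R j)) := by
    intro j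
    have hvol : (volume : Measure (EuclideanSpace ℝ (Fin n))) (Metric.closedBall x (R j))
        = ENNReal.ofReal ((δ / 2) ^ n) * ((3 ^ n) ^ j)⁻¹ * V := by
      rw [Measure.addHaar_closedBall _ _ (hR0 j).le, finrank_euclideanSpace, Fintype.card_fin]
      congr 1
      simp only [hR]
      rw [mul_pow, ENNReal.ofReal_mul (by positivity)]
      congr 1
      rw [← pow_mul, one_div, inv_pow, ENNReal.ofReal_inv_of_pos (by positivity),
        ENNReal.ofReal_pow (by norm_num), ← pow_mul, mul_comm j n]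
      norm_num
    have hvol0 : (volume : Measure (EuclideanSpace ℝ (Fin n))) (Metric.closedBall x (R j)) ≠ 0 :=
      (Metric.measure_closedBall_pos volume _ (hR0 j)).ne'
    have hvolt : (volume : Measure (EuclideanSpace ℝ (Fin n))) (Metric.closedBall x (R j)) ≠ ⊤ :=
      measure_closedBall_lt_top.ne
    rw [ENNReal.le_div_iff_mul_le (Or.inr hvol0) (Or.inr hvolt), hvol, hX]
    have h3 : ((3 : ℝ≥0∞) ^ n) ^ j ≠ 0 := by positivity
    have h3t : ((3 : ℝ≥0∞) ^ n) ^ j ≠ ⊤ :=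
      ENNReal.pow_ne_top (ENNReal.pow_ne_top (by norm_num))
    have key : 2 ^ j * (μ (Metric.closedBall x (R j))) ≤ ((3 ^ n) ^ j)⁻¹ * M := by
      have h4 := hdec j
      rw [mul_pow, mul_comm ((2 : ℝ≥0∞) ^ j), mul_assoc] at h4
      calc 2 ^ j * (μ (Metric.closedBall x (R j)))
          = ((3 ^ n) ^ j)⁻¹ * ((3 ^ n) ^ j * (2 ^ j * μ (Metric.closedBall x (R j)))) := by
            rw [← mul_assoc ((3 ^ n) ^ j)⁻¹, ENNReal.inv_mul_cancel h3 h3t, one_mul]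
        _ ≤ ((3 ^ n) ^ j)⁻¹ * M := by gcongr
    calc 2 ^ j * (ENNReal.ofReal ((δ / 2) ^ n) * V / M) * μ (Metric.closedBall x (R j))
        = (ENNReal.ofReal ((δ / 2) ^ n) * V * M⁻¹) * (2 ^ j * μ (Metric.closedBall x (R j))) := by
          rw [div_eq_mul_inv]
          ring
      _ ≤ (ENNReal.ofReal ((δ / 2) ^ n) * V * M⁻¹) * (((3 ^ n) ^ j)⁻¹ * M) := by gcongr
      _ = ENNReal.ofReal ((δ / 2) ^ n) * ((3 ^ n) ^ j)⁻¹ * V * (M⁻¹ * M) := by ring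
      _ = ENNReal.ofReal ((δ / 2) ^ n) * ((3 ^ n) ^ j)⁻¹ * V := by
          rw [ENNReal.inv_mul_cancel hM0 hMt, mul_one]
  obtain ⟨Q, hQ⟩ : ∃ Q : ℝ≥0∞, Q ≠ ⊤ ∧ volume.rnDeriv μ x < Q :=
    ⟨volume.rnDeriv μ x + 1, by simp [hfin.ne],
      ENNReal.lt_add_right hfin.ne one_ne_zero⟩
  have hev : ∀ᶠ j in atTop, (2 : ℝ≥0∞) ^ j * X < Q := by
    filter_upwards [hx2.eventually_lt_const hQ.2] with j hj
    exact (hratio j).trans_lt hj
  obtain ⟨j0, hj0⟩ := eventually_atTop.1 hev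
  obtain ⟨k, hk⟩ := ENNReal.exists_nat_gt (ENNReal.div_lt_top hQ.1 hX0).ne
  have h5 := hj0 (max j0 k) (le_max_left _ _)
  have h6 : Q < k * X := by
    rwa [ENNReal.div_lt_iff (Or.inl hX0) (Or.inr hQ.1)] at hk
  have h7 : (k : ℝ≥0∞) ≤ 2 ^ (max j0 k) := by
    have : k ≤ 2 ^ (max j0 k) :=
      (Nat.lt_two_pow_self).le.trans (Nat.pow_le_pow_right (by norm_num) (le_max_right _ _))
    exact_mod_cast this
  have h8 : (k : ℝ≥0∞) * X ≤ 2 ^ (max j0 k) * X := by gcongr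
  exact absurd (h6.trans_le h8) (not_lt.2 h5.le)

/-! ### The main theorem -/

/-- the quotient in Q1 -/
noncomputable def ratio (μ : Measure (EuclideanSpace ℝ (Fin n))) (α : ℝ)
    (θ x : EuclideanSpace ℝ (Fin n)) (r : ℝ) : ℝ≥0∞ :=
  min (μ (cone x r θ α)) (μ (cone x r (-θ) α)) / μ (Metric.closedBall x r)

lemma bad_null (μ : Measure (EuclideanSpace ℝ (Fin n))) [IsFiniteMeasure μ]
    (hμ : ∀ x, μ {x} = 0) {α : ℝ} {Θ : Finset (EuclideanSpace ℝ (Fin n))}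
    (hΘ : ∀ x y : EuclideanSpace ℝ (Fin n), x ≠ y → ∃ θ ∈ Θ, y ∈ H x θ (Real.sqrt (1 - α ^ 2)))
    {ε : ℝ} (hε : 0 < ε) :
    μ {x | ∀ r ∈ Set.Ioo 0 ε, ∀ θ ∈ Θ, ratio μ α θ x r <
      (2 * (2 ^ Θ.card * ((Θ.card : ℝ≥0∞) + 1)))⁻¹ / (2 * 3 ^ n)} = 0 := by
  set κ : ℝ≥0∞ := (2 * (2 ^ Θ.card * ((Θ.card : ℝ≥0∞) + 1)))⁻¹ with hκ
  set Bad : Set (EuclideanSpace ℝ (Fin n)) := {x | ∀ r ∈ Set.Ioo 0 ε, ∀ θ ∈ Θ,
    ratio μ α θ x r < κ / (2 * 3 ^ n)} with hBad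
  by_contra hne
  have hne2 : μ.restrict Bad ≠ 0 := by
    intro h
    rw [← Measure.restrict_apply_univ, h] at hne
    exact hne rfl
  have : NeBot (ae (μ.restrict Bad)) := ae_neBot.2 hne2
  obtain ⟨x, hx1, hx2⟩ := ((Besicovitch.ae_tendsto_measure_inter_div μ Bad).and
    (ae_restrict_of_ae (ae_frequently_doubling μ))).exists
  have h1 : ∀ᶠ r in 𝓝[>] (0 : ℝ),
      (1 / 2 : ℝ≥0∞) < μ (Bad ∩ Metric.closedBall x r) / μ (Metric.closedBall x r) :=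
    hx1.eventually_const_lt (by norm_num)
  have h2 : ∀ᶠ r in 𝓝[>] (0 : ℝ), r ∈ Set.Ioo 0 (ε / 2) :=
    Ioo_mem_nhdsGT (by positivity)
  obtain ⟨r, hdoub, hdens, hr0, hrε⟩ := (hx2.and_eventually (h1.and h2)).exists
  set m := μ (Metric.closedBall x r) with hm
  have hmt : m ≠ ⊤ := measure_ne_top _ _
  have hm0 : m ≠ 0 := by
    intro h0
    have h3 : μ (Bad ∩ Metric.closedBall x r) = 0 :=
      le_antisymm ((measure_mono Set.inter_subset_right).trans h0.le) (zero_le)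
    rw [h3, ENNReal.zero_div] at hdens
    exact absurd hdens (not_lt.2 zero_le)
  have hdens2 : m / 2 < μ (Bad ∩ Metric.closedBall x r) := by
    rw [ENNReal.lt_div_iff_mul_lt (Or.inl hm0) (Or.inl hmt)] at hdens
    rwa [one_div, mul_comm, ← div_eq_mul_inv] at hdens
  set ν := μ.restrict (Metric.closedBall x r) with hν
  have hνat : ∀ y, ν {y} = 0 := fun y =>
    le_antisymm ((Measure.restrict_apply_le _ _).trans (hμ y).le) zero_le
  have hTS := measure_compl_TS_le ν hνat hΘ (m * κ)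
  have hhalf : (2 : ℝ≥0∞) ^ Θ.card * ((Θ.card : ℝ≥0∞) * (m * κ)) ≤ m / 2 := by
    have hK0 : (2 : ℝ≥0∞) ^ Θ.card * ((Θ.card : ℝ≥0∞) + 1) ≠ 0 := by positivity
    have hKt : (2 : ℝ≥0∞) ^ Θ.card * ((Θ.card : ℝ≥0∞) + 1) ≠ ⊤ :=
      ENNReal.mul_ne_top (ENNReal.pow_ne_top (by norm_num)) (by simp)
    calc (2 : ℝ≥0∞) ^ Θ.card * ((Θ.card : ℝ≥0∞) * (m * κ))
        ≤ (2 : ℝ≥0∞) ^ Θ.card * (((Θ.card : ℝ≥0∞) + 1) * (m * κ)) := by
          gcongr
          exact le_self_add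
      _ = m * ((2 ^ Θ.card * ((Θ.card : ℝ≥0∞) + 1)) * κ) := by ring
      _ = m * 2⁻¹ := by
          congr 1
          rw [hκ, ENNReal.mul_inv (Or.inl (by norm_num)) (Or.inl (by norm_num)),
            mul_comm (2⁻¹ : ℝ≥0∞), ← mul_assoc, ENNReal.mul_inv_cancel hK0 hKt, one_mul]
      _ = m / 2 := by rw [div_eq_mul_inv]
  obtain ⟨y, ⟨hyBad, hyB⟩, hyTS⟩ : ∃ y, y ∈ Bad ∩ Metric.closedBall x r ∧
      y ∈ TS ν Θ (Real.sqrt (1 - α ^ 2)) (m * κ) := by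
    by_contra hcon
    push Not at hcon
    have hsub : Bad ∩ Metric.closedBall x r ⊆
        (TS ν Θ (Real.sqrt (1 - α ^ 2)) (m * κ))ᶜ ∩ Metric.closedBall x r :=
      fun y hy => ⟨hcon y hy, hy.2⟩
    have h3 : μ (Bad ∩ Metric.closedBall x r) ≤ m / 2 := by
      calc μ (Bad ∩ Metric.closedBall x r)
          ≤ μ ((TS ν Θ (Real.sqrt (1 - α ^ 2)) (m * κ))ᶜ ∩ Metric.closedBall x r) :=
            measure_mono hsub
        _ = ν (TS ν Θ (Real.sqrt (1 - α ^ 2)) (m * κ))ᶜ :=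
            (Measure.restrict_apply' Metric.isClosed_closedBall.measurableSet).symm
        _ ≤ _ := hTS
        _ ≤ m / 2 := hhalf
    exact absurd hdens2 (not_lt.2 h3)
  obtain ⟨θ, hθ, hθ1, hθ2⟩ := hyTS
  have hyx : dist y x ≤ r := hyB
  have hsub1 : Metric.closedBall x r ⊆ Metric.closedBall y (2 * r) := by
    apply Metric.closedBall_subset_closedBall'
    rw [dist_comm]
    linarith
  have hsub2 : Metric.closedBall y (2 * r) ⊆ Metric.closedBall x (3 * r) := by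
    apply Metric.closedBall_subset_closedBall'
    linarith
  have hc1 : ∀ φ : EuclideanSpace ℝ (Fin n), ν (H y φ (Real.sqrt (1 - α ^ 2)))
      ≤ μ (cone y (2 * r) φ α) := by
    intro φ
    rw [hν, Measure.restrict_apply' Metric.isClosed_closedBall.measurableSet]
    apply measure_mono
    intro z hz
    exact ⟨hsub1 hz.2, hz.1⟩
  have hbig : μ (Metric.closedBall y (2 * r)) ≤ (2 * 3 ^ n) * m :=
    (measure_mono hsub2).trans hdoub
  have hC0 : (2 * 3 ^ n : ℝ≥0∞) ≠ 0 := by positivity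
  have hCt : (2 * 3 ^ n : ℝ≥0∞) ≠ ⊤ :=
    ENNReal.mul_ne_top (by norm_num) (ENNReal.pow_ne_top (by norm_num))
  have hbad := hyBad (2 * r) ⟨by positivity, by linarith⟩ θ hθ
  apply absurd hbad
  rw [not_lt]
  unfold ratio
  have hB0 : μ (Metric.closedBall y (2 * r)) ≠ 0 := by
    have : m ≤ μ (Metric.closedBall y (2 * r)) := measure_mono hsub1
    exact (lt_of_lt_of_le (pos_iff_ne_zero.2 hm0) this).ne'
  rw [ENNReal.le_div_iff_mul_le (Or.inl hB0) (Or.inl (measure_ne_top _ _))]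
  calc κ / (2 * 3 ^ n) * μ (Metric.closedBall y (2 * r))
      ≤ κ / (2 * 3 ^ n) * ((2 * 3 ^ n) * m) := by gcongr
    _ = m * κ := by
        rw [← mul_assoc, ENNReal.div_mul_cancel hC0 hCt, mul_comm]
    _ ≤ min (μ (cone y (2 * r) θ α)) (μ (cone y (2 * r) (-θ) α)) :=
        le_min (hθ1.le.trans (hc1 θ)) (hθ2.le.trans (hc1 (-θ)))

/-- **Full answer to Q1 (affirmative).** For all `n` and `0 < α ≤ 1` there is `c > 0` such that
for every non-atomic finite nonzero Borel measure `μ` on `ℝⁿ` and `μ`-almost every `x` there is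
a direction `θ` with
`limsup_{r ↓ 0} min (μ (X⁺(x,r,θ,α))) (μ (X⁺(x,r,-θ,α))) / μ (B(x,r)) > c`. -/
theorem main_cones (n : ℕ) (α : ℝ) (hα0 : 0 < α) (_hα1 : α ≤ 1) :
    ∃ c : ℝ, 0 < c ∧ ∀ μ : Measure (EuclideanSpace ℝ (Fin n)), IsFiniteMeasure μ → μ ≠ 0 →
      (∀ x, μ {x} = 0) →
      ∀ᵐ x ∂μ, ∃ θ ∈ Metric.sphere (0 : EuclideanSpace ℝ (Fin n)) 1,
        limsup (fun r : ℝ => min (μ (cone x r θ α)) (μ (cone x r (-θ) α)) /
          μ (Metric.closedBall x r)) (𝓝[>] 0) > ENNReal.ofReal c := by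
  have hβ : Real.sqrt (1 - α ^ 2) < 1 := by
    rw [Real.sqrt_lt' one_pos]
    nlinarith [sq_nonneg α, pow_pos hα0 2]
  obtain ⟨Θ, hΘs, hΘ⟩ := exists_cover (n := n) hβ
  set κ : ℝ≥0∞ := (2 * (2 ^ Θ.card * ((Θ.card : ℝ≥0∞) + 1)))⁻¹ / (2 * 3 ^ n) with hκ
  have hCt : (2 * 3 ^ n : ℝ≥0∞) ≠ ⊤ :=
    ENNReal.mul_ne_top (by norm_num) (ENNReal.pow_ne_top (by norm_num))
  have hC0 : (2 * 3 ^ n : ℝ≥0∞) ≠ 0 := by positivity
  have hKt : (2 * (2 ^ Θ.card * ((Θ.card : ℝ≥0∞) + 1))) ≠ ⊤ :=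
    ENNReal.mul_ne_top (by norm_num)
      (ENNReal.mul_ne_top (ENNReal.pow_ne_top (by norm_num)) (by simp))
  have hK0 : (2 * (2 ^ Θ.card * ((Θ.card : ℝ≥0∞) + 1))) ≠ 0 := by positivity
  have hκ0 : κ ≠ 0 := (ENNReal.div_pos (ENNReal.inv_ne_zero.2 hKt) hCt).ne'
  have hκt : κ ≠ ⊤ := (ENNReal.div_lt_top (ENNReal.inv_ne_top.2 hK0) hC0).ne
  refine ⟨(κ / 2).toReal, ?_, ?_⟩
  · apply ENNReal.toReal_pos
    · exact (ENNReal.div_pos hκ0 (by norm_num)).ne'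
    · exact (ENNReal.div_lt_top hκt (by norm_num)).ne
  intro μ hfin _ hat
  rw [ENNReal.ofReal_toReal (ENNReal.div_lt_top hκt (by norm_num)).ne]
  rw [ae_iff]
  have hsub : {x | ¬ ∃ θ ∈ Metric.sphere (0 : EuclideanSpace ℝ (Fin n)) 1,
      limsup (fun r : ℝ => min (μ (cone x r θ α)) (μ (cone x r (-θ) α)) /
        μ (Metric.closedBall x r)) (𝓝[>] 0) > κ / 2} ⊆
      ⋃ k : ℕ, {x | ∀ r ∈ Set.Ioo (0 : ℝ) (1 / ((k : ℝ) + 1)), ∀ θ ∈ Θ,
        ratio μ α θ x r < κ} := by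
    intro x hx
    have hx' : ∀ θ ∈ Metric.sphere (0 : EuclideanSpace ℝ (Fin n)) 1,
        limsup (fun r : ℝ => ratio μ α θ x r) (𝓝[>] 0) ≤ κ / 2 := by
      intro θ hθ
      by_contra hcon
      exact hx ⟨θ, hθ, not_le.1 hcon⟩
    have hev : ∀ᶠ r in 𝓝[>] (0 : ℝ), ∀ θ ∈ Θ, ratio μ α θ x r < κ := by
      rw [Finset.eventually_all]
      intro θ hθ
      exact eventually_lt_of_limsup_lt ((hx' θ (hΘs θ hθ)).trans_lt
        (ENNReal.half_lt_self hκ0 hκt))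
    obtain ⟨δ, hδ, h⟩ := mem_nhdsGT_iff_exists_Ioo_subset.1 hev
    obtain ⟨k, hk⟩ := exists_nat_one_div_lt (show (0 : ℝ) < δ from hδ)
    refine Set.mem_iUnion.2 ⟨k, fun r hr θ hθ => ?_⟩
    exact h ⟨hr.1, hr.2.trans hk⟩ θ hθ
  refine measure_mono_null hsub (measure_iUnion_null fun k => ?_)
  exact bad_null μ hat hΘ (by positivity)

end Pool.Agent.Results.MP_acc68d_an.TwoSidedCones
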